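import Pool.Agent.Helper86.Poly.Goals

set_option autoImplicit false

open MeasureTheory Set
open scoped InnerProductSpace

namespace Pool.Agent.Helper87.Poly

open Pool.Agent.Helper86.Poly

namespace PkCAP

theorem thm : G_CAP := by
  intro d K T c r hK hc hTK hr0 hr1 z hzK hzφ hzW hzT
  obtain ⟨hKc, hKconv, hKd, hKcomp⟩ := hK
  have hne : z ≠ c := by
    rintro rfl
    exact hzφ z hc (by simp)
  have hN : 0 < ‖z - c‖ := by
    rw [norm_pos_iff, sub_ne_zero]; exact hne
  set f : ℝ → E d := fun t => c + t • (z - c) with hf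
  have hfc : Continuous f := by fun_prop
  have hf1 : f 1 = z := by simp [hf]
  have hbound : ∀ t : ℝ, 0 ≤ t → f t ∈ K → t ≤ 1 / ‖z - c‖ := by
    intro t ht h
    have h1 := hKd _ h _ hc
    rw [dist_eq_norm] at h1
    simp only [hf, add_sub_cancel_left, norm_smul, Real.norm_eq_abs, abs_of_nonneg ht] at h1
    rw [le_div_iff₀ hN]; exact h1
  have hA : IsCompact (Icc (0 : ℝ) (1 / ‖z - c‖) ∩ f ⁻¹' K) :=
    isCompact_Icc.inter_right (hKc.isClosed.preimage hfc)
  have hAne : (Icc (0 : ℝ) (1 / ‖z - c‖) ∩ f ⁻¹' K).Nonempty := by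
    have h1 : f 1 ∈ K := by rw [hf1]; exact hzK
    exact ⟨1, ⟨by norm_num, hbound 1 (by norm_num) h1⟩, h1⟩
  obtain ⟨t₀, ht₀, hmax⟩ := hA.exists_isGreatest hAne
  have ht₀1 : 1 ≤ t₀ := by
    have h1 : f 1 ∈ K := by rw [hf1]; exact hzK
    exact hmax ⟨⟨by norm_num, hbound 1 (by norm_num) h1⟩, h1⟩
  have ht₀0 : 0 < t₀ := by linarith
  set x := f t₀ with hx
  have hxK : x ∈ K := ht₀.2
  -- the farthest point
  obtain ⟨y, hyK, hymax⟩ := hKc.exists_isMaxOn ⟨c, hc⟩ (f := fun y => dist x y)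
    (by fun_prop)
  have hxy : dist x y = 1 := by
    refine le_antisymm (hKd x hxK y hyK) ?_
    by_contra hlt
    push Not at hlt
    set δ := (1 - dist x y) / ‖z - c‖ with hδ
    have hδ0 : 0 < δ := div_pos (by linarith) hN
    have hnot : f (t₀ + δ) ∉ K := by
      intro hmem
      have := hmax ⟨⟨by linarith, hbound (t₀ + δ) (by linarith) hmem⟩, hmem⟩
      linarith
    obtain ⟨y', hy'K, hy'⟩ := hKcomp _ hnot
    have h1 : dist (f (t₀ + δ)) x = 1 - dist x y := by
      rw [dist_eq_norm]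
      have : f (t₀ + δ) - x = δ • (z - c) := by
        simp only [hx, hf, add_smul]; abel
      rw [this, norm_smul, Real.norm_eq_abs, abs_of_pos hδ0, hδ, div_mul_cancel₀ _ hN.ne']
    have h2 : dist x y' ≤ dist x y := hymax hy'K
    have h3 := dist_triangle (f (t₀ + δ)) x y'
    linarith
  set u := x - y with hu
  have hun : ‖u‖ = 1 := by rw [hu, ← dist_eq_norm]; exact hxy
  set s := 1 / t₀ with hs
  have hs0 : 0 < s := by positivity
  have hs1 : s ≤ 1 := by
    rw [hs, div_le_one ht₀0]; exact ht₀1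
  have hzs : z = c + s • (x - c) := by
    have : x - c = t₀ • (z - c) := by simp [hx, hf]
    rw [this, smul_smul, hs, one_div, inv_mul_cancel₀ ht₀0.ne', one_smul]; abel
  set k := 1 - r ^ 2 / 2 with hk
  have hk0 : 0 < k := by nlinarith
  have hsk : k < s := by
    by_contra hle
    push Not at hle
    have hq : 0 ≤ s / k := by positivity
    have hq1 : s / k ≤ 1 := by rw [div_le_one hk0]; exact hle
    have hw : c + (s / k) • (x - c) ∈ K := by
      have := hKconv hc hxK (a := 1 - s / k) (b := s / k) (by linarith) hq (by ring)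
      convert this using 1
      module
    apply hzφ _ hw
    have h1 : c + (s / k) • (x - c) - c = (s / k) • (x - c) := by abel
    have h2 : k • ((s / k) • (x - c)) = s • (x - c) := by
      rw [smul_smul]
      congr 1
      field_simp
    rw [h1, h2]
    exact hzs
  have hxv : ∀ v ∈ T, r < dist x v := by
    intro v hv
    by_contra hle
    push Not at hle
    apply hzW v hv
    have h1 : c ∈ convexHull ℝ (insert c (Metric.closedBall v r)) :=
      subset_convexHull ℝ _ (mem_insert _ _)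
    have h2 : x ∈ convexHull ℝ (insert c (Metric.closedBall v r)) :=
      subset_convexHull ℝ _ (mem_insert_of_mem _ (by simpa using hle))
    have := (convex_convexHull ℝ (insert c (Metric.closedBall v r))) h1 h2
      (a := 1 - s) (b := s) (by linarith) hs0.le (by ring)
    rw [hzs]
    convert this using 1
    module
  have hin : ∀ v ∈ T, ⟪u, v⟫_ℝ < k + ⟪u, y⟫_ℝ := by
    intro v hv
    have h1 := hxv v hv
    have h2 := hKd v (hTK hv) y hyK
    rw [dist_eq_norm] at h1 h2
    have h3 : ‖x - v‖ ^ 2 = ‖u‖ ^ 2 - 2 * ⟪u, v - y⟫_ℝ + ‖v - y‖ ^ 2 := by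
      have : x - v = u - (v - y) := by rw [hu]; abel
      rw [this, norm_sub_sq_real]
    have h4 : r ^ 2 < ‖x - v‖ ^ 2 := by
      exact pow_lt_pow_left₀ h1 hr0.le (by norm_num)
    have h5 : ‖v - y‖ ^ 2 ≤ 1 := by
      have := norm_nonneg (v - y)
      nlinarith
    rw [hun] at h3
    rw [inner_sub_right] at h3
    rw [hk]
    nlinarith
  have hsub : convexHull ℝ T ⊆ {q | ⟪u, q⟫_ℝ < k + ⟪u, y⟫_ℝ} := by
    apply convexHull_min
    · intro v hv; exact hin v hv
    · exact convex_halfSpace_lt (f := fun q => ⟪u, q⟫_ℝ)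
        ⟨fun a b => inner_add_right _ _ _, fun a b => by
          simp [inner_smul_right]⟩ _
  have h6 : ⟪u, z⟫_ℝ < k + ⟪u, y⟫_ℝ := hsub hzT
  have h7 : ⟪u, x⟫_ℝ = 1 + ⟪u, y⟫_ℝ := by
    have : ⟪u, x - y⟫_ℝ = 1 := by
      rw [← hu, real_inner_self_eq_norm_sq, hun]; norm_num
    rw [inner_sub_right] at this
    linarith
  have h8 : -1 ≤ ⟪u, c - x⟫_ℝ := by
    have h9 := abs_real_inner_le_norm u (c - x)
    have h10 := hKd c hc x hxK
    rw [dist_eq_norm] at h10
    rw [hun, one_mul] at h9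
    have := neg_abs_le (⟪u, c - x⟫_ℝ)
    linarith
  rw [inner_sub_right] at h8
  have h11 : ⟪u, z⟫_ℝ = (1 - s) * ⟪u, c⟫_ℝ + s * ⟪u, x⟫_ℝ := by
    rw [hzs, inner_add_right, inner_smul_right, inner_sub_right]; ring
  have h12 : 0 ≤ (1 - s) * (⟪u, c⟫_ℝ - ⟪u, y⟫_ℝ) := by
    apply mul_nonneg (by linarith)
    linarith
  nlinarith

end PkCAP

end Pool.Agent.Helper87.Poly
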